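import Mathlib
import Pool.Agent.Helper650.APDefs
import Pool.Agent.H279R2.Alt8
import Pool.Agent.H279R2.Alt9

set_option autoImplicit false

namespace Pool.Agent.Results.MP_0187d8_co.SqrtOrder

open Pool.Agent.Helper650.AltPath

/-- The order of magnitude of `f n` is `√n`: there are constants `c, C > 0` such that
`c √n ≤ f n ≤ C √n` for every `n ≥ 1`. Moreover every collection of `n` pairwise disjoint segments
in general position has a simple noncrossing alternating path of length at least `c √n`, and some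
such collection has no such path of length greater than `C √n`. -/
theorem result : ∃ c C : ℝ, 0 < c ∧ 0 < C ∧ ∀ n : ℕ, 1 ≤ n →
    (c * Real.sqrt n ≤ (f n : ℝ) ∧ (f n : ℝ) ≤ C * Real.sqrt n) ∧
    (∀ p : Fin n → Bool → ℝ × ℝ, DisjointGenPos p →
      ∃ (ℓ : ℕ) (v : ℕ → ℝ × ℝ), IsAltPath p ℓ v ∧ c * Real.sqrt n ≤ (ℓ : ℝ)) ∧
    (∃ p : Fin n → Bool → ℝ × ℝ, DisjointGenPos p ∧
      ∀ (ℓ : ℕ) (v : ℕ → ℝ × ℝ), IsAltPath p ℓ v → (ℓ : ℝ) ≤ C * Real.sqrt n) := by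
  refine ⟨1 / 40000, 6, by norm_num, by norm_num, fun n hn => ⟨⟨?_, ?_⟩, ?_, ?_⟩⟩
  · exact Pool.Agent.H279R2.Alt.lower' n
  · exact Pool.Agent.H279R2.Alt.upper' n hn
  · exact fun p hp => Pool.Agent.H279R2.Alt.long_path' hp
  · have hm0 : 0 < Nat.sqrt n + 1 := Nat.succ_pos _
    have hnm : n ≤ (Nat.sqrt n + 1) * (Nat.sqrt n + 1) := (Nat.lt_succ_sqrt n).le
    refine ⟨_, Pool.Agent.H279R2.Alt.cp_genpos hm0 n, fun ℓ v h => ?_⟩
    have h0 := Pool.Agent.H279R2.Alt.cp_short hm0 hnm h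
    have h1 : (1 : ℝ) ≤ Real.sqrt n := by
      rw [Real.one_le_sqrt]; exact_mod_cast hn
    have h2 : (Nat.sqrt n : ℝ) ≤ Real.sqrt n := Real.nat_sqrt_le_real_sqrt
    have h3 : (ℓ : ℝ) ≤ ((3 * (Nat.sqrt n + 1) : ℕ) : ℝ) := by exact_mod_cast h0
    push_cast at h3
    linarith

end Pool.Agent.Results.MP_0187d8_co.SqrtOrder
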